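import Mathlib
import Pool.Agent.X172.GR.Stm

set_option autoImplicit false

namespace Pool.Agent.X37.GR

open Pool.Agent.X172.GR

theorem per_mul {n : ℕ} {T : ℕ → Fin 6} (h : Ty n T) (i c : ℕ) : T (i + n * c) = T i := by
  induction c with
  | zero => simp
  | succ c ih => rw [Nat.mul_succ, ← Nat.add_assoc, h.per, ih]

theorem T_mod {n : ℕ} {T : ℕ → Fin 6} (h : Ty n T) {x y : ℕ} (hxy : x % n = y % n) : T x = T y := by
  have h1 : T x = T (x % n) := by
    conv_lhs => rw [← Nat.mod_add_div x n]
    exact per_mul h _ _
  have h2 : T y = T (y % n) := by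
    conv_lhs => rw [← Nat.mod_add_div y n]
    exact per_mul h _ _
  rw [h1, h2, hxy]

theorem rd_get {T : ℕ → Fin 6} (w : List Ltr) : ∀ i, Rd T i w ↔
    ∀ j (h : j < w.length), (w[j]).1 = T (i + j) := by
  induction w with
  | nil => intro i; simp [Rd]
  | cons a w ih =>
    intro i
    rw [Rd, ih (i + 1)]
    constructor
    · rintro ⟨h1, h2⟩ j hj
      rcases j with _ | j
      · exact h1
      · have := h2 j (by simpa using hj)
        simp only [List.getElem_cons_succ]
        rw [this]
        congr 1
        omega
    · intro h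
      refine ⟨h 0 (Nat.succ_pos _), fun j hj => ?_⟩
      have := h (j + 1) (by simpa using hj)
      simp only [List.getElem_cons_succ] at this
      rw [this]
      congr 1
      omega

/-- a word of length `p`, `0 < p < n`, is not a period of the first `n` types of a readable word -/
theorem arith {n : ℕ} {T : ℕ → Fin 6} (h : Ty n T) (i p : ℕ) (hp : 0 < p)
    (hpn : p < n) (hA : ∀ j < n - p, T (i + j) = T (i + p + j)) : False := by
  have hnq : ¬ n ∣ n - p := fun hdd => by
    have := Nat.le_of_dvd (by omega) hdd
    omega
  obtain ⟨j, hj, hne⟩ := h.sqf (i + p) (n - p) (by omega) hnq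
  apply hne
  rw [← hA j hj, ← h.per (i + j)]
  congr 1
  omega

/-- the middle case: only the first `n` letters are needed -/
theorem com_mid {n : ℕ} {T : ℕ → Fin 6} (h : Ty n T) (s t : List Ltr) (hs : s ≠ [])
    (hsn : s.length < n) (htn : n ≤ t.length) (ht : Readable T t)
    (h1 : (s ++ t).take n = (t ++ s).take n) : False := by
  obtain ⟨i, hi⟩ := ht
  rw [rd_get] at hi
  have hsp : 0 < s.length := List.length_pos_iff.2 hs
  apply arith h i s.length hsp hsn
  intro j hj
  have e1 : ((s ++ t).take n)[s.length + j]? = ((t ++ s).take n)[s.length + j]? := by rw [h1]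
  rw [List.getElem?_take_of_lt (by omega), List.getElem?_take_of_lt (by omega),
    List.getElem?_append_right (by omega), List.getElem?_append_left (by omega),
    Nat.add_sub_cancel_left, List.getElem?_eq_getElem (by omega),
    List.getElem?_eq_getElem (by omega), Option.some_inj] at e1
  have e2 := hi j (by omega)
  have e3 := hi (s.length + j) (by omega)
  rw [← e2, e1, e3, Nat.add_assoc]

end Pool.Agent.X37.GR
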